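import Pool.Agent.T2H62.CubeG

set_option autoImplicit false

/-!
MP_5628fe_nt: primes `p` with `p + 6` a product of at most two primes, `p` and `p + 6` consecutive rough numbers,
in narrow progressions, in a positive proportion of the intervals between consecutive cubes.
-/

namespace Pool.Agent.Results.MP_5628fe_nt.ChenProgressions

open Pool.Agent.T2H62.Cube Filter

/-- `GoodP R n p`: `p` is a prime, `n ^ 3 < p`, `p + 6 < (n + 1) ^ 3`, `p + 6` has at most two prime factors, all of
them larger than `n ^ (1/3)`, and `p`, `p + 6` are consecutive among the integers without a prime factor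
`≤ n ^ (1/R)`. `TP R l D n` is the number of these `p` that are terms of an `l`-term arithmetic progression of such
primes with difference at most `D`. There are `R` and `c, κ > 0` such that for every `l ≥ 2` there is `B` such that
`TP R l ((log n) ^ B) n ≥ c n² / log² n` for at least `κ N` of the `n < N`, for all large `N`. -/
theorem result : ∃ R : ℕ, 3 ≤ R ∧ ∃ c κ : ℝ, 0 < c ∧ 0 < κ ∧ ∀ l : ℕ, 2 ≤ l → ∃ B : ℕ, ∀ᶠ N : ℕ in atTop,
    κ * N ≤ (((Finset.range N).filter
      (fun n : ℕ => 2 ≤ n ∧ c * ((n : ℝ) ^ 2 / Real.log n ^ 2) ≤ TP R l (Real.log n ^ B) n)).card : ℝ) := by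
  obtain ⟨R, hR, c, κ, hc, hκ, h⟩ := chenAP
  refine ⟨R, hR, c, κ, hc, hκ, fun l hl => ?_⟩
  obtain ⟨B, hB⟩ := h l hl
  refine ⟨B, ?_⟩
  filter_upwards [hB] with N hN
  exact hN

end Pool.Agent.Results.MP_5628fe_nt.ChenProgressions
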