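import Pool.Agent.T2H62.CubeC

set_option autoImplicit false

/-!
MP_5628fe_nt, towards Q2: the analogue of `S(n) → ∞` for integers without small prime factors.

`Sexy s m` (`Pool.Agent.T2H62.CubeA`) says that `m` and `m + 6` are consecutive among the integers without a
prime factor `≤ s`; `S s n` is the number of such `m` with `n ^ 3 < m`, `m + 6 < (n + 1) ^ 3`; `S0 n` is the
`S(n)` of the question.
-/

namespace Pool.Agent.Results.MP_5628fe_nt.ConsecutiveRough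

open Pool.Agent.T2H62.Cube Filter

/-- * For every sifting limit `s` with `(n + 1) ^ 3 ≤ (s + 1) ^ 2` and `s ≤ n ^ 3` the number `S s n` is the
  number `S(n)` of the question.
* For every `ε > 0` and every large enough fixed `r`, for all large `n` and `s = ⌊n ^ (1/r)⌋`:
  `|S s n - 3 n² D s| ≤ ε · 3 n² D s`, where `D s` is the product over the primes `p ≤ s` of `1 - 1/p` (`p ≤ 3`)
  and `1 - 2/p` (`p > 3`), and `3 n² D s ≥ c r² n² / log² n`; every integer between the cubes without a prime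
  factor `≤ s` has at most `3 r` prime factors. -/
theorem result :
    (∀ n s : ℕ, 1 ≤ n → s ≤ n ^ 3 → (n + 1) ^ 3 ≤ (s + 1) ^ 2 → S s n = S0 n) ∧
    ∃ c : ℝ, 0 < c ∧ ∀ ε : ℝ, 0 < ε → ∃ r₀ : ℕ, 1 ≤ r₀ ∧ ∀ r : ℕ, r₀ ≤ r → ∀ᶠ n : ℕ in atTop,
      ∀ s : ℕ, s = ⌊(n : ℝ) ^ (1 / (r : ℝ))⌋₊ →
        |(S s n : ℝ) - 3 * (n : ℝ) ^ 2 * D s| ≤ ε * (3 * (n : ℝ) ^ 2 * D s) ∧
        c * (r : ℝ) ^ 2 * (n : ℝ) ^ 2 / Real.log n ^ 2 ≤ 3 * (n : ℝ) ^ 2 * D s ∧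
        ∀ m : ℕ, 0 < m → m < (n + 1) ^ 3 → Rough s m → m.primeFactorsList.length ≤ 3 * r := by
  refine ⟨fun n s hn hs hs2 => S_eq_S0 n s hn hs hs2, ?_⟩
  obtain ⟨c, hc, h⟩ := D_order
  refine ⟨c, hc, fun ε hε => ?_⟩
  obtain ⟨r₀, h0, h1⟩ := count ε hε
  refine ⟨r₀, h0, fun r hr => ?_⟩
  filter_upwards [h1 r hr, h r (by omega), few_cubes r (by omega)] with n g1 g2 g3
  rintro s rfl
  exact ⟨g1 _ rfl, g2, g3⟩

end Pool.Agent.Results.MP_5628fe_nt.ConsecutiveRough
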