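import Pool.Agent.T2H62.CubeC

set_option autoImplicit false

/-!
MP_5628fe_nt: the distribution, between consecutive cubes, of the distances between neighbouring pairs
`(m, m + 6)` of consecutive integers without small prime factors.
-/

namespace Pool.Agent.Results.MP_5628fe_nt.DistanceLaw

open Pool.Agent.T2H62.Cube Filter

/-- `Sexy s m`: `m` and `m + 6` are consecutive among the integers without a prime factor `≤ s`.
`Q s k T n`: the number of the `m ≡ 1 (mod 30)` with `n ^ 3 < m`, `m + 6 < (n + 1) ^ 3` and `Sexy s m` such that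
fewer than `k` of the numbers `m - 30, m - 60, ..., m - 30 T` start such a pair.
`E s`: the density of the `t` with `Sexy s (30 t + 1)`, the product over the primes `5 < p ≤ s` of `1 - 2/p`.
For `s = ⌊n ^ (1/r)⌋`, `r` a large enough constant, all large `n`, and all `k` and `T` with `k ≤ k0` or
`T · E s ≤ x0`, the proportion of the pairs counted by `Q s k T n` is that of the Poisson law of mean `T · E s`,
up to `ε`. -/
theorem result (k0 : ℕ) (x0 ε : ℝ) (hε : 0 < ε) : ∃ r₀ : ℕ, 1 ≤ r₀ ∧ ∀ r : ℕ, r₀ ≤ r → ∀ᶠ n : ℕ in atTop,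
    ∀ s : ℕ, s = ⌊(n : ℝ) ^ (1 / (r : ℝ))⌋₊ → ∀ k T : ℕ, (k ≤ k0 ∨ T * E s ≤ x0) →
      |(Q s k T n : ℝ) -
          (n : ℝ) ^ 2 / 10 * E s * ∑ j ∈ Finset.range k, Real.exp (-(T * E s)) * (T * E s) ^ j / j.factorial| ≤
        ε * ((n : ℝ) ^ 2 / 10 * E s) :=
  law k0 x0 ε hε

end Pool.Agent.Results.MP_5628fe_nt.DistanceLaw
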