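import Mathlib
import Pool.Agent.T2H62.MD.U

set_option autoImplicit false

/-! # Consecutive sieved random primes with a given difference between consecutive cubes

Random primes: every integer `n` without a prime factor `p ≤ A log n` is chosen with probability
`∏_{p ≤ A log n} (1 - 1/p)⁻¹ / log n` (at most `1`), the other integers are not chosen, and the choices are independent
(`A = 1`: Granville's modification of Cramer's model). Almost surely, for every even `h ≥ 2`, the number of the pairs of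
consecutive random primes with difference `h` between `n ^ 3` and `(n + 1) ^ 3` is asymptotic to `s(h) n² / (3 (log n)²)`,
`s(h)` the singular series of Hardy and Littlewood. In particular (`h = 6`) the number `S(n)` of the question tends to
infinity. -/

namespace Pool.Agent.Results.MP_5628fe_nt.SievedRandomCubes

open Finset Filter Topology MeasureTheory ProbabilityTheory

open scoped Classical in
/-- the probability that `n` is a random prime -/
noncomputable def prob (A : ℝ) (n : ℕ) : ℝ :=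
  if ∀ p : ℕ, p.Prime → (p : ℝ) ≤ A * Real.log n → ¬ p ∣ n then
    min 1 ((∏ p ∈ (Icc 1 ⌊A * Real.log n⌋₊).filter Nat.Prime, (1 - (p : ℝ)⁻¹)⁻¹) / Real.log n) else 0

/-- the events `S n` (`n` is a random prime) are independent with the probabilities `prob A n` -/
def Model (A : ℝ) {Ω : Type*} [MeasurableSpace Ω] (μ : Measure Ω) (S : ℕ → Set Ω) : Prop :=
  IsProbabilityMeasure μ ∧ (∀ n, MeasurableSet (S n)) ∧ iIndepSet S μ ∧
    ∀ n, μ (S n) = ENNReal.ofReal (prob A n)

/-- the number of the pairs `r < r + h` of consecutive elements of `R` with `n ^ 3 < r`, `r + h < (n + 1) ^ 3` -/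
noncomputable def pairs (R : Set ℕ) (h n : ℕ) : ℕ :=
  {r : ℕ | n ^ 3 < r ∧ r + h < (n + 1) ^ 3 ∧ r ∈ R ∧ r + h ∈ R ∧ ∀ m, r < m → m < r + h → m ∉ R}.ncard

/-- the partial product of the singular series of the difference `h` over the primes `p ≤ z` -/
noncomputable def singular (h z : ℕ) : ℝ :=
  ∏ p ∈ (Icc 1 z).filter Nat.Prime, (1 - (if p ∣ h then 1 else 2) / p) * ((1 - (p : ℝ)⁻¹)⁻¹) ^ 2

theorem lim_main (h : ℕ) : Tendsto (fun n : ℕ => (((((n + 1) ^ 3 - h - 2 : ℕ) : ℝ) - ((n ^ 3 - 1 : ℕ) : ℝ)) /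
    Real.log ((n ^ 3 - 1 : ℕ) : ℝ) ^ 2) * (Real.log n ^ 2 / (n : ℝ) ^ 2)) atTop (𝓝 (1 / 3)) := by
  have hT : Tendsto (fun n : ℕ => (n : ℝ)) atTop atTop := tendsto_natCast_atTop_atTop
  have hL : Tendsto (fun n : ℕ => Real.log (n : ℝ)) atTop atTop := Real.tendsto_log_atTop.comp hT
  have h1 : Tendsto (fun n : ℕ => Real.log ((n ^ 3 - 1 : ℕ) : ℝ) / Real.log n) atTop (𝓝 3) := by
    have h2 : Tendsto (fun n : ℕ => 3 - 1 / Real.log (n : ℝ)) atTop (𝓝 3) := by
      have := (tendsto_const_nhds (x := (3 : ℝ))).sub (hL.const_div_atTop 1)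
      rwa [sub_zero] at this
    refine tendsto_of_tendsto_of_tendsto_of_le_of_le' h2 tendsto_const_nhds ?_ ?_
    · filter_upwards [eventually_ge_atTop 3, hL.eventually_gt_atTop 0] with n hn hl
      have hn0 : (0 : ℝ) < n := by exact_mod_cast (by omega : 0 < n)
      have hn3 : 27 ≤ n ^ 3 := by
        calc 27 = 3 ^ 3 := by norm_num
          _ ≤ n ^ 3 := Nat.pow_le_pow_left hn 3
      have h3 : (n : ℝ) ^ 3 / 2 ≤ ((n ^ 3 - 1 : ℕ) : ℝ) := by
        rw [Nat.cast_sub (by omega)]
        push_cast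
        have : (27 : ℝ) ≤ (n : ℝ) ^ 3 := by exact_mod_cast hn3
        linarith
      have h4 := Real.log_le_log (by positivity) h3
      rw [Real.log_div (by positivity) (by norm_num), Real.log_pow] at h4
      have h5 := Real.log_two_lt_d9
      have h6 : 3 - 1 / Real.log (n : ℝ) = (3 * Real.log n - 1) / Real.log n := by field_simp
      rw [h6]
      apply div_le_div_of_nonneg_right _ hl.le
      push_cast at h4
      linarith
    · filter_upwards [eventually_ge_atTop 3, hL.eventually_gt_atTop 0] with n hn hl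
      have hn3 : 27 ≤ n ^ 3 := by
        calc 27 = 3 ^ 3 := by norm_num
          _ ≤ n ^ 3 := Nat.pow_le_pow_left hn 3
      rw [div_le_iff₀ hl]
      have h3 : ((n ^ 3 - 1 : ℕ) : ℝ) ≤ (n : ℝ) ^ 3 := by
        have : n ^ 3 - 1 ≤ n ^ 3 := Nat.sub_le _ _
        exact_mod_cast this
      have h4 := Real.log_le_log (by exact_mod_cast (by omega : 0 < n ^ 3 - 1)) h3
      rw [Real.log_pow] at h4
      push_cast at h4
      exact h4
  have h2 : Tendsto (fun n : ℕ => ((((n + 1) ^ 3 - h - 2 : ℕ) : ℝ) - ((n ^ 3 - 1 : ℕ) : ℝ)) / (n : ℝ) ^ 2) atTop (𝓝 3) := by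
    have h3 : Tendsto (fun n : ℕ => 3 + 3 / (n : ℝ) - h / (n : ℝ) ^ 2) atTop (𝓝 3) := by
      have e1 : Tendsto (fun n : ℕ => 3 / (n : ℝ)) atTop (𝓝 0) := hT.const_div_atTop 3
      have e2 : Tendsto (fun n : ℕ => (h : ℝ) / (n : ℝ) ^ 2) atTop (𝓝 0) :=
        ((tendsto_pow_atTop (by norm_num : (2 : ℕ) ≠ 0)).comp hT).const_div_atTop (h : ℝ)
      have := ((tendsto_const_nhds (x := (3 : ℝ))).add e1).sub e2
      rwa [add_zero, sub_zero] at this
    refine h3.congr' ?_
    filter_upwards [eventually_ge_atTop (h + 3)] with n hn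
    have hn0 : (0 : ℝ) < n := by exact_mod_cast (by omega : 0 < n)
    have h4 : n ≤ n ^ 3 := Nat.le_self_pow (by norm_num) n
    have h5 : h + 2 ≤ (n + 1) ^ 3 := by
      have : n + 1 ≤ (n + 1) ^ 3 := Nat.le_self_pow (by norm_num) _
      omega
    rw [Nat.sub_sub, Nat.cast_sub h5, Nat.cast_sub (by omega)]
    push_cast
    field_simp
    ring
  have h3 := h2.div (h1.pow 2) (by norm_num)
  have e : (3 : ℝ) / 3 ^ 2 = 1 / 3 := by norm_num
  rw [e] at h3
  refine h3.congr' ?_
  filter_upwards [eventually_ge_atTop 3, hL.eventually_gt_atTop 0] with n hn hl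
  have hn0 : (0 : ℝ) < n := by exact_mod_cast (by omega : 0 < n)
  simp only [Pi.div_apply]
  rcases eq_or_ne (Real.log ((n ^ 3 - 1 : ℕ) : ℝ)) 0 with h0 | h0
  · rw [h0]
    simp
  · field_simp

theorem result (A : ℝ) (hA : 0 < A) :
    -- the model exists
    (∃ (μ : Measure (ℕ → Bool)) (S : ℕ → Set (ℕ → Bool)), Model A μ S) ∧
    ∀ (Ω : Type) [MeasurableSpace Ω] (μ : Measure Ω) (S : ℕ → Set Ω), Model A μ S →
      ∀ᵐ ω ∂μ, ∀ h : ℕ, 0 < h → Even h → ∃ s : ℝ, 0 < s ∧ Tendsto (singular h) atTop (𝓝 s) ∧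
        Tendsto (fun n : ℕ => (pairs {m | ω ∈ S m} h n : ℝ) * (Real.log n ^ 2 / (n : ℝ) ^ 2)) atTop (𝓝 (s / 3)) := by
  classical
  have hprob : ∀ n, prob A n = Pool.Agent.T2H53.GW.pr A n := fun n => rfl
  refine ⟨?_, ?_⟩
  · obtain ⟨μ, S, h1, h2, h3, h4⟩ := Pool.Agent.T2H53.GW.exists_model (prob A)
      (fun n => by rw [hprob]; exact Pool.Agent.T2H53.GW.pr_nonneg A n)
      (fun n => by rw [hprob]; exact Pool.Agent.T2H53.GW.pr_le_one A n)
    exact ⟨μ, S, h1, h2, h3, h4⟩
  · rintro Ω _ μ S ⟨hμ, hm, hi, hp⟩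
    have hp' : ∀ n, μ.real (S n) = Pool.Agent.T2H53.GW.pr A n := fun n => by
      rw [measureReal_def, hp n, ENNReal.toReal_ofReal (by rw [hprob]; exact Pool.Agent.T2H53.GW.pr_nonneg A n), hprob]
    filter_upwards [Pool.Agent.T2H62.MD.HL_short A hA hm hi hp', Pool.Agent.T2H62.MD.ae_none (μ := μ) (S := S) (fun n hn => by
        rw [Measure.real, ENNReal.toReal_eq_zero_iff] at hn
        rcases hn with hn | hn
        · exact hn
        · exact absurd hn (measure_ne_top μ _))] with ω hω hω0 h hh he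
    have hT : Tendsto (fun n : ℕ => (n : ℝ)) atTop atTop := tendsto_natCast_atTop_atTop
    have hL : Tendsto (fun n : ℕ => Real.log (n : ℝ)) atTop atTop := Real.tendsto_log_atTop.comp hT
    -- the tuple of the pair
    have hnu : ∀ p : ℕ, p.Prime → Pool.Agent.T2H62.MD.nu {1, 1 + h} p = if p ∣ h then 1 else 2 := by
      intro p hp2
      unfold Pool.Agent.T2H62.MD.nu
      rw [image_insert, image_singleton]
      split_ifs with hd
      · have : (1 + h) % p = 1 % p := (Nat.modEq_zero_iff_dvd.2 hd).add_left 1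
        rw [this]
        simp
      · apply card_pair
        intro h1
        apply hd
        have h2 : 1 ≡ 1 + h [MOD p] := h1
        have h3 := (Nat.modEq_iff_dvd' (by omega : 1 ≤ 1 + h)).1 h2
        rwa [Nat.add_sub_cancel_left] at h3
    have hc2 : ({1, 1 + h} : Finset ℕ).card = 2 := card_pair (by omega)
    have hadm : ∀ p : ℕ, p.Prime → Pool.Agent.T2H62.MD.nu {1, 1 + h} p < p := by
      intro p hp2
      rw [hnu p hp2]
      split_ifs with hd
      · exact hp2.one_lt
      · rcases hp2.eq_two_or_odd with h2 | h2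
        · rw [h2] at hd
          exact absurd he.two_dvd hd
        · have := hp2.two_le
          omega
    have hTy : ({1, 1 + h} : Finset ℕ) ⊆ Icc 1 (1 + h) := by
      intro i hi
      rw [mem_insert, mem_singleton] at hi
      rw [mem_Icc]
      omega
    obtain ⟨s, hs0, hs⟩ := Pool.Agent.T2H62.MD.SS_tendsto {1, 1 + h} _ hTy hadm
    have hss : ∀ z, Pool.Agent.T2H62.MD.SS {1, 1 + h} z = singular h z := by
      intro z
      unfold Pool.Agent.T2H62.MD.SS singular
      rw [hc2]
      refine prod_congr rfl fun p hp2 => ?_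
      rw [hnu p (mem_filter.1 hp2).2]
      push_cast
      rfl
    refine ⟨s, hs0, hs.congr hss, ?_⟩
    -- the intervals
    obtain ⟨Nn, hNn⟩ : ∃ Nn : ℕ → ℕ, Nn = fun n => n ^ 3 - 1 := ⟨_, rfl⟩
    obtain ⟨Mn, hMn⟩ : ∃ Mn : ℕ → ℕ, Mn = fun n => (n + 1) ^ 3 - h - 2 := ⟨_, rfl⟩
    have hNt : Tendsto Nn atTop atTop := by
      refine tendsto_atTop_mono' atTop ?_ (tendsto_sub_atTop_nat 1)
      filter_upwards [] with n
      rw [hNn]
      have : n ≤ n ^ 3 := Nat.le_self_pow (by norm_num) n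
      simp only
      omega
    have hint : ∀ᶠ n : ℕ in atTop, ((Nn n : ℕ) : ℝ) + ((Nn n : ℕ) : ℝ) ^ (1 / 2 : ℝ) ≤ Mn n ∧ Mn n ≤ 2 * Nn n := by
      filter_upwards [eventually_ge_atTop (h + 8)] with n hn
      have e1 : (n + 1) ^ 3 = n ^ 3 + 3 * n ^ 2 + 3 * n + 1 := by ring
      have e2 : n ^ 3 = n * n ^ 2 := by ring
      have e3 : 8 * n ^ 2 ≤ n * n ^ 2 := Nat.mul_le_mul_right _ (by omega)
      have e4 : n ≤ n ^ 2 := Nat.le_self_pow (by norm_num) n
      constructor
      · have h1 : ((Nn n : ℕ) : ℝ) ^ (1 / 2 : ℝ) ≤ (n : ℝ) ^ 2 := by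
          have h2 : ((Nn n : ℕ) : ℝ) ≤ ((n : ℝ) ^ 2) ^ 2 := by
            have h3 : Nn n ≤ (n ^ 2) ^ 2 := by
              rw [hNn]
              simp only
              have : (n ^ 2) ^ 2 = n * n ^ 3 := by ring
              rw [this]
              have : n ^ 3 ≤ n * n ^ 3 := Nat.le_mul_of_pos_left _ (by omega)
              omega
            exact_mod_cast h3
          rw [← Real.sqrt_eq_rpow]
          calc Real.sqrt (Nn n : ℝ) ≤ Real.sqrt (((n : ℝ) ^ 2) ^ 2) := Real.sqrt_le_sqrt h2
            _ = (n : ℝ) ^ 2 := Real.sqrt_sq (by positivity)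
        have h2 : Nn n + n ^ 2 ≤ Mn n := by
          rw [hNn, hMn]
          simp only
          omega
        have h3 : ((Nn n : ℕ) : ℝ) + (n : ℝ) ^ 2 ≤ Mn n := by exact_mod_cast h2
        linarith
      · rw [hNn, hMn]
        simp only
        omega
    -- the bound by triples
    obtain ⟨U, hU⟩ : ∃ U : ℕ → ℕ → ℕ, U = fun i n => ((Ioc (Nn n) (Mn n)).filter (fun m => ω ∈ S (m + 1) ∧ ω ∈ S (m + (1 + i)) ∧
      ω ∈ S (m + (1 + h)))).card := ⟨_, rfl⟩
    have hpos3 : ∀ᶠ n : ℕ in atTop, 0 ≤ ((Mn n : ℝ) - Nn n) := by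
      filter_upwards [hint] with n hn
      have : (0 : ℝ) ≤ ((Nn n : ℕ) : ℝ) ^ (1 / 2 : ℝ) := by positivity
      linarith [hn.1]
    have htriple : ∀ i : ℕ, 0 < i → i < h → ∃ c : ℝ, 0 ≤ c ∧ ∀ᶠ n : ℕ in atTop,
        (U i n : ℝ) ≤ c * (((Mn n : ℝ) - Nn n) / Real.log (Nn n) ^ 3) := by
      intro i hi0 hih
      have hc3 : ({1, 1 + i, 1 + h} : Finset ℕ).card = 3 := card_eq_three.2 ⟨1, 1 + i, 1 + h, by omega, by omega, by omega, rfl⟩
      by_cases hadm3 : ∀ p : ℕ, p.Prime → Pool.Agent.T2H62.MD.nu {1, 1 + i, 1 + h} p < p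
      · have hTy3 : ({1, 1 + i, 1 + h} : Finset ℕ) ⊆ Icc 1 (1 + h) := by
          intro j hj
          rw [mem_insert, mem_insert, mem_singleton] at hj
          rw [mem_Icc]
          omega
        obtain ⟨s3, hs30, hs3⟩ := Pool.Agent.T2H62.MD.SS_tendsto {1, 1 + i, 1 + h} _ hTy3 hadm3
        refine ⟨s3 + 1, by positivity, ?_⟩
        have h1 := hω {1, 1 + i, 1 + h} (by simp; omega) hadm3 s3 hs3 (1 / 2) 1 (by norm_num) one_pos
        filter_upwards [hNt.eventually h1, hint] with n h2 h3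
        have h4 := (abs_le.1 (h2 (Mn n) h3.1 h3.2)).2
        rw [hc3] at h4
        have h5 : (U i n : ℝ) = Pool.Agent.T2H62.MD.cnt (Ioc (Nn n) (Mn n)) (Pool.Agent.T2H62.MD.Fh S {1, 1 + i, 1 + h}) ω := by
          rw [Pool.Agent.T2H62.MD.cnt_eq, hU]
          simp only
          congr 2
          apply filter_congr
          intro m _
          unfold Pool.Agent.T2H62.MD.Fh
          simp
        rw [h5]
        linarith
      · refine ⟨0, le_rfl, ?_⟩
        push Not at hadm3
        obtain ⟨p, hpp, hpn⟩ := hadm3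
        -- every translate has a multiple of `p`
        have hcov : ∀ m : ℕ, p ∣ m + 1 ∨ p ∣ m + (1 + i) ∨ p ∣ m + (1 + h) := by
          intro m
          unfold Pool.Agent.T2H62.MD.nu at hpn
          have h1 : (({1, 1 + i, 1 + h} : Finset ℕ).image (fun j => j % p)) = range p := by
            apply eq_of_subset_of_card_le
            · intro j hj
              rw [mem_image] at hj
              obtain ⟨k, _, rfl⟩ := hj
              exact mem_range.2 (Nat.mod_lt _ hpp.pos)
            · rw [card_range]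
              exact hpn
          have h2 : (p - m % p) % p ∈ (({1, 1 + i, 1 + h} : Finset ℕ).image (fun j => j % p)) := by
            rw [h1, mem_range]
            exact Nat.mod_lt _ hpp.pos
          rw [mem_image] at h2
          obtain ⟨k, hk, hk2⟩ := h2
          have h3 : p ∣ m + k := by
            apply Nat.dvd_of_mod_eq_zero
            rw [Nat.add_mod, hk2, Nat.add_mod_mod]
            have h4 : m % p + (p - m % p) = p := Nat.add_sub_cancel' (Nat.mod_lt _ hpp.pos).le
            rw [h4, Nat.mod_self]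
          rw [mem_insert, mem_insert, mem_singleton] at hk
          rcases hk with rfl | rfl | rfl
          · exact Or.inl h3
          · exact Or.inr (Or.inl h3)
          · exact Or.inr (Or.inr h3)
        have hbig : ∀ᶠ m : ℕ in atTop, ∀ k : ℕ, m ≤ k → p ∣ k → ω ∉ S k := by
          filter_upwards [(hL.const_mul_atTop hA).eventually_ge_atTop (p : ℝ), eventually_ge_atTop 1] with m h1 h2 k hk hd
          apply hω0
          rw [hp']
          unfold Pool.Agent.T2H53.GW.pr
          rw [if_neg]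
          intro h3
          apply h3 p hpp _ hd
          refine h1.trans (mul_le_mul_of_nonneg_left ?_ hA.le)
          exact Real.log_le_log (by exact_mod_cast h2) (by exact_mod_cast hk)
        filter_upwards [hNt.eventually hbig] with n h1
        have h2 : U i n = 0 := by
          rw [hU]
          simp only
          rw [card_eq_zero, filter_eq_empty_iff]
          rintro m hm2 ⟨a1, a2, a3⟩
          rw [mem_Ioc] at hm2
          rcases hcov m with b | b | b
          · exact h1 _ (by omega) b a1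
          · exact h1 _ (by omega) b a2
          · exact h1 _ (by omega) b a3
        rw [h2]
        simp
    -- the number of the pairs
    obtain ⟨W, hW⟩ : ∃ W : ℕ → ℕ, W = fun n => ((Ioc (Nn n) (Mn n)).filter (fun m => ω ∈ S (m + 1) ∧ ω ∈ S (m + (1 + h)))).card :=
      ⟨_, rfl⟩
    have hpairs : ∀ᶠ n : ℕ in atTop, pairs {m | ω ∈ S m} h n = ((Ioc (Nn n) (Mn n)).filter (fun m => ω ∈ S (m + 1) ∧
        ω ∈ S (m + (1 + h)) ∧ ∀ i ∈ Ioo 0 h, ω ∉ S (m + (1 + i)))).card := by
      filter_upwards [eventually_ge_atTop (h + 3)] with n hn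
      have h4 : n ≤ n ^ 3 := Nat.le_self_pow (by norm_num) n
      have h5 : h + 2 ≤ (n + 1) ^ 3 := by
        have : n + 1 ≤ (n + 1) ^ 3 := Nat.le_self_pow (by norm_num) _
        omega
      unfold pairs
      have h6 : {r : ℕ | n ^ 3 < r ∧ r + h < (n + 1) ^ 3 ∧ r ∈ {m | ω ∈ S m} ∧ r + h ∈ {m | ω ∈ S m} ∧
          ∀ m, r < m → m < r + h → m ∉ {m | ω ∈ S m}} =
          (((Ioc (Nn n) (Mn n)).filter (fun m => ω ∈ S (m + 1) ∧ ω ∈ S (m + (1 + h)) ∧ ∀ i ∈ Ioo 0 h, ω ∉ S (m + (1 + i)))).image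
            (fun m => m + 1) : Finset ℕ) := by
        ext r
        simp only [Set.mem_ofPred_eq, coe_image, coe_filter, Set.mem_image, mem_Ioc, hNn, hMn]
        constructor
        · rintro ⟨a1, a2, a3, a4, a5⟩
          have e1 : r - 1 + 1 = r := by omega
          refine ⟨r - 1, ⟨⟨by omega, by omega⟩, by rw [e1]; exact a3, ?_, ?_⟩, e1⟩
          · have : r - 1 + (1 + h) = r + h := by omega
            rw [this]
            exact a4
          · intro i hi2
            rw [mem_Ioo] at hi2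
            have : r - 1 + (1 + i) = r + i := by omega
            rw [this]
            exact a5 _ (by omega) (by omega)
        · rintro ⟨m, ⟨⟨a1, a2⟩, a3, a4, a5⟩, rfl⟩
          refine ⟨by omega, by omega, a3, ?_, ?_⟩
          · have : m + 1 + h = m + (1 + h) := by omega
            rw [this]
            exact a4
          · intro k hk1 hk2
            have : m + (1 + (k - (m + 1))) = k := by omega
            have h7 := a5 (k - (m + 1)) (mem_Ioo.2 ⟨by omega, by omega⟩)
            rwa [this] at h7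
      rw [h6, Set.ncard_coe_finset, card_image_of_injective _ (fun a b h => by simpa using h)]
    have hW1 : ∀ᶠ n : ℕ in atTop, (pairs {m | ω ∈ S m} h n : ℝ) ≤ W n ∧
        (W n : ℝ) - ∑ i ∈ Ioo 0 h, (U i n : ℝ) ≤ pairs {m | ω ∈ S m} h n := by
      filter_upwards [hpairs] with n hn
      rw [hn]
      constructor
      · rw [hW]
        have : ((Ioc (Nn n) (Mn n)).filter (fun m => ω ∈ S (m + 1) ∧ ω ∈ S (m + (1 + h)) ∧ ∀ i ∈ Ioo 0 h, ω ∉ S (m + (1 + i)))).card ≤
            ((Ioc (Nn n) (Mn n)).filter (fun m => ω ∈ S (m + 1) ∧ ω ∈ S (m + (1 + h)))).card := by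
          apply card_le_card
          intro m hm2
          rw [mem_filter] at hm2 ⊢
          exact ⟨hm2.1, hm2.2.1, hm2.2.2.1⟩
        exact_mod_cast this
      · have h1 : W n ≤ ((Ioc (Nn n) (Mn n)).filter (fun m => ω ∈ S (m + 1) ∧ ω ∈ S (m + (1 + h)) ∧
            ∀ i ∈ Ioo 0 h, ω ∉ S (m + (1 + i)))).card + ∑ i ∈ Ioo 0 h, U i n := by
          rw [hW, hU]
          simp only
          refine le_trans ?_ (Nat.add_le_add_left card_biUnion_le _)
          refine le_trans ?_ (card_union_le _ _)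
          apply card_le_card
          intro m hm2
          rw [mem_filter] at hm2
          rw [mem_union]
          by_cases hc : ∀ i ∈ Ioo 0 h, ω ∉ S (m + (1 + i))
          · left
            rw [mem_filter]
            exact ⟨hm2.1, hm2.2.1, hm2.2.2, hc⟩
          · right
            push Not at hc
            obtain ⟨i, hi2, hi3⟩ := hc
            rw [mem_biUnion]
            refine ⟨i, hi2, ?_⟩
            rw [mem_filter]
            exact ⟨hm2.1, hm2.2.1, hi3, hm2.2.2⟩
        have h2 : (W n : ℝ) ≤ (((Ioc (Nn n) (Mn n)).filter (fun m => ω ∈ S (m + 1) ∧ ω ∈ S (m + (1 + h)) ∧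
            ∀ i ∈ Ioo 0 h, ω ∉ S (m + (1 + i)))).card : ℝ) + ∑ i ∈ Ioo 0 h, (U i n : ℝ) := by exact_mod_cast h1
        linarith
    -- the normalised numbers
    obtain ⟨X, hX⟩ : ∃ X : ℕ → ℝ, X = fun n => (((Mn n : ℝ) - Nn n) / Real.log (Nn n) ^ 2) * (Real.log n ^ 2 / (n : ℝ) ^ 2) :=
      ⟨_, rfl⟩
    have hXlim : Tendsto X atTop (𝓝 (1 / 3)) := by
      rw [hX, hMn, hNn]
      exact lim_main h
    have hWlim : Tendsto (fun n => (W n : ℝ) * (Real.log n ^ 2 / (n : ℝ) ^ 2)) atTop (𝓝 (s / 3)) := by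
      have h1 : Tendsto (fun n => (W n : ℝ) * (Real.log n ^ 2 / (n : ℝ) ^ 2) - s * X n) atTop (𝓝 0) := by
        rw [Metric.tendsto_atTop]
        intro ε hε
        have h2 := hω {1, 1 + h} (by simp; omega) hadm s hs (1 / 2) (ε / 2) (by norm_num) (by positivity)
        have h3 := hXlim.eventually (eventually_lt_nhds (show (1 / 3 : ℝ) < 1 by norm_num))
        have hev : ∀ᶠ n : ℕ in atTop, dist ((W n : ℝ) * (Real.log n ^ 2 / (n : ℝ) ^ 2) - s * X n) 0 < ε := by
          filter_upwards [hNt.eventually h2, hint, h3, hpos3] with n a1 a2 a3 a4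
          have a5 := a1 (Mn n) a2.1 a2.2
          rw [hc2] at a5
          have a6 : (W n : ℝ) = Pool.Agent.T2H62.MD.cnt (Ioc (Nn n) (Mn n)) (Pool.Agent.T2H62.MD.Fh S {1, 1 + h}) ω := by
            rw [Pool.Agent.T2H62.MD.cnt_eq, hW]
            simp only
            congr 2
            apply filter_congr
            intro m _
            unfold Pool.Agent.T2H62.MD.Fh
            simp
          rw [← a6] at a5
          rw [Real.dist_eq, sub_zero]
          have a7 : (W n : ℝ) * (Real.log n ^ 2 / (n : ℝ) ^ 2) - s * X n =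
              ((W n : ℝ) - s * (((Mn n : ℝ) - Nn n) / Real.log (Nn n) ^ 2)) * (Real.log n ^ 2 / (n : ℝ) ^ 2) := by
            rw [hX]
            ring
          rw [a7, abs_mul, abs_of_nonneg (by positivity : (0 : ℝ) ≤ Real.log n ^ 2 / (n : ℝ) ^ 2)]
          have a8 := mul_le_mul_of_nonneg_right a5 (by positivity : (0 : ℝ) ≤ Real.log n ^ 2 / (n : ℝ) ^ 2)
          refine lt_of_le_of_lt a8 ?_
          have a9 : ε / 2 * (((Mn n : ℝ) - Nn n) / Real.log (Nn n) ^ 2) * (Real.log n ^ 2 / (n : ℝ) ^ 2) = ε / 2 * X n := by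
            rw [hX]
            ring
          rw [a9]
          nlinarith
        obtain ⟨n, hn⟩ := eventually_atTop.1 hev
        exact ⟨n, hn⟩
      have h2 := h1.add (hXlim.const_mul s)
      have e : (0 : ℝ) + s * (1 / 3) = s / 3 := by ring
      rw [e] at h2
      refine h2.congr fun n => ?_
      ring
    have hlogN : Tendsto (fun n => Real.log (Nn n : ℝ)) atTop atTop := hL.comp hNt
    have hUlim : ∀ i ∈ Ioo 0 h, Tendsto (fun n => (U i n : ℝ) * (Real.log n ^ 2 / (n : ℝ) ^ 2)) atTop (𝓝 0) := by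
      intro i hi2
      rw [mem_Ioo] at hi2
      obtain ⟨c, hc0, hc⟩ := htriple i hi2.1 hi2.2
      have h1 : Tendsto (fun n => c * X n * (1 / Real.log (Nn n : ℝ))) atTop (𝓝 0) := by
        have h2 := (hXlim.const_mul c).mul (hlogN.const_div_atTop 1)
        rwa [mul_zero] at h2
      refine squeeze_zero' (Eventually.of_forall fun n => by positivity) ?_ h1
      filter_upwards [hc] with n hn
      have h2 := mul_le_mul_of_nonneg_right hn (by positivity : (0 : ℝ) ≤ Real.log n ^ 2 / (n : ℝ) ^ 2)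
      refine h2.trans (le_of_eq ?_)
      rw [hX]
      simp only
      rw [pow_succ (Real.log (Nn n : ℝ)) 2]
      rcases eq_or_ne (Real.log (Nn n : ℝ)) 0 with h0 | h0
      · rw [h0]; simp
      · field_simp
    have hUsum : Tendsto (fun n => ∑ i ∈ Ioo 0 h, (U i n : ℝ) * (Real.log n ^ 2 / (n : ℝ) ^ 2)) atTop (𝓝 0) := by
      have h1 := tendsto_finsetSum (Ioo 0 h) hUlim
      simpa using h1
    have hlow : Tendsto (fun n => (W n : ℝ) * (Real.log n ^ 2 / (n : ℝ) ^ 2) -
        ∑ i ∈ Ioo 0 h, (U i n : ℝ) * (Real.log n ^ 2 / (n : ℝ) ^ 2)) atTop (𝓝 (s / 3)) := by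
      have := hWlim.sub hUsum
      rwa [sub_zero] at this
    refine tendsto_of_tendsto_of_tendsto_of_le_of_le' hlow hWlim ?_ ?_
    · filter_upwards [hW1] with n hn
      have h1 := mul_le_mul_of_nonneg_right hn.2 (by positivity : (0 : ℝ) ≤ Real.log n ^ 2 / (n : ℝ) ^ 2)
      rw [sub_mul, sum_mul] at h1
      exact h1
    · filter_upwards [hW1] with n hn
      exact mul_le_mul_of_nonneg_right hn.1 (by positivity)

end Pool.Agent.Results.MP_5628fe_nt.SievedRandomCubes
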